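import Mathlib
import Pool.Agent.Lib.MP_68925f_co.Uniq
import Pool.Agent.Lib.MP_68925f_co.P.Main

/-!
MP_68925f_co: which polynomials in several variables over the nim field give `k`-regular arrays.
The checks below show that the mex definition `nimMul` obeys rules (a), (b), (c) of the problem,
and that the two posed questions are the cases `X ^ 2` and `X Y` with `k = 2`.
-/

namespace Pool.Agent.Results.MP_68925f_co.NimPolynomials

open Pool.Agent.Lib.MP_68925f_co

/-- Rule (a). -/
theorem check_rule_a (a n : ℕ) (h : n < 2 ^ 2 ^ a) : nimMul (2 ^ 2 ^ a) n = 2 ^ 2 ^ a * n :=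
  ruleA (tower a).1 n h

/-- Rule (b). -/
theorem check_rule_b (a : ℕ) : nimMul (2 ^ 2 ^ a) (2 ^ 2 ^ a) = 3 * 2 ^ 2 ^ a / 2 := by
  have hn : 1 ≤ 2 ^ a := Nat.one_le_two_pow
  rw [ruleB (tower a).1 (tower a).2 hn]
  obtain ⟨m, hm⟩ : ∃ m, 2 ^ a = m + 1 := ⟨2 ^ a - 1, by omega⟩
  rw [hm, Nat.add_sub_cancel, pow_succ]
  omega

/-- Rule (c), and commutativity. -/
theorem check_rule_c (x y z : ℕ) :
    nimMul (nimMul x y) z = nimMul x (nimMul y z) ∧
    nimMul x (y ^^^ z) = nimMul x y ^^^ nimMul x z ∧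
    nimMul (x ^^^ y) z = nimMul x z ^^^ nimMul y z ∧
    nimMul x y = nimMul y x :=
  ⟨nimMul_assoc x y z, nimMul_xor x y z, xor_nimMul x y z, nimMul_comm x y⟩

/-- Rules (a), (b), (c) and commutativity determine the product. -/
theorem check_unique (op : ℕ → ℕ → ℕ)
    (ha : ∀ a n, n < 2 ^ 2 ^ a → op (2 ^ 2 ^ a) n = 2 ^ 2 ^ a * n)
    (hb : ∀ a, op (2 ^ 2 ^ a) (2 ^ 2 ^ a) = 3 * 2 ^ 2 ^ a / 2)
    (hs : ∀ x y z, op (op x y) z = op x (op y z))
    (hd : ∀ x y z, op x (y ^^^ z) = op x y ^^^ op x z) (hc : ∀ x y, op x y = op y x) (x y : ℕ) :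
    op x y = nimMul x y :=
  unique_of_rules op ha hb hs hd hc x y

/-- A polynomial array over the nim field is `k`-regular if and only if the polynomial has total
degree at most one and, unless `k` is a power of two, is a constant or a variable plus a
constant. -/
theorem result (r k : ℕ) (hk : 2 ≤ k) (P : (Fin r → ℕ) →₀ ℕ) :
    IsKRegular k (fun n => (nimEval P n : ℤ)) ↔
      (∀ d, P d ≠ 0 → ∑ i, d i ≤ 1) ∧ ((∃ s : ℕ, k = 2 ^ s) ∨ ∑ i, P (Pi.single i 1) ≤ 1) :=
  classification hk P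

/-- Q1 as posed follows: the nim squares are not 2-regular. -/
theorem posed_q1 : ¬ IsTwoRegular (fun n => (nimMul n n : ℤ)) := by
  intro h
  have e : ∀ n : Fin 1 → ℕ, nimEval (Finsupp.single ![2] 1) n = nimMul (n 0) (n 0) := fun n => by
    simp [nimEval_single, nimMono, nimPow, nimMul_one, one_nimMul]
  have h1 := ((result 1 2 le_rfl (Finsupp.single ![2] 1)).1
    (by simp only [e]; exact (isTwoRegular_iff _).1 h)).1 ![2] (by simp)
  simp at h1

/-- Q2 as posed follows: the nim multiplication table is not 2-regular. -/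
theorem posed_q2 : ¬ IsTwoRegularArray (fun p => (nimMul p.1 p.2 : ℤ)) := by
  intro h
  have e : ∀ n : Fin 2 → ℕ, nimEval (Finsupp.single ![1, 1] 1) n = nimMul (n 0) (n 1) := fun n => by
    simp [nimEval_single, nimMono, nimPow, nimMul_one, one_nimMul]
  have h1 := ((result 2 2 le_rfl (Finsupp.single ![1, 1] 1)).1
    (by simp only [e]; exact (isTwoRegularArray_iff _).1 h)).1 ![1, 1] (by simp)
  simp at h1

end Pool.Agent.Results.MP_68925f_co.NimPolynomials
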